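import Pool.Agent.H501.K2.Fin60

/-!
# MP_df49e3_nt, Q1: the Legendre polynomial `P_{(p-1)/2}` at `7√-15 ± 16√-3` modulo `p²`

The conjectured congruence holds for every prime `p ≡ 1, 4 (mod 15)`.

Dictionary with the problem file:

* `P n X = ∑_{k ≤ n} C(n,k) C(n+k,k) ((X-1)/2)^k` is the Legendre polynomial, here over `ℚ_p`;
* `s`, `t` are elements of `ℤ_p` (`ℤ_[p]` in Mathlib) with `s² = -15`, `t² = -3`;
* `symb a` is the Legendre symbol of the residue of `a ∈ ℤ_p` (Mathlib's quadratic character of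
  `ZMod p` at the reduction of `a`);
* `jacobiSym x 15` is the Jacobi symbol `(x/15)`;
* `a ≡ b (mod p²)` means `a - b ∈ p² ℤ_p`, i.e. `a - b = p² r` with `r ∈ ℤ_p`.
-/

set_option autoImplicit false

namespace Pool.Agent.Results.MP_df49e3_nt.SixtyLegendre

open Finset

/-- the Legendre polynomial in the normalisation of the problem -/
noncomputable def P {p : ℕ} [Fact p.Prime] (n : ℕ) (X : ℚ_[p]) : ℚ_[p] :=
  ∑ k ∈ range (n + 1), (n.choose k : ℚ_[p]) * ((n + k).choose k : ℚ_[p]) * ((X - 1) / 2) ^ k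

/-- the Legendre symbol of the residue of a `p`-adic integer -/
noncomputable def symb {p : ℕ} [Fact p.Prime] (a : ℤ_[p]) : ℤ := quadraticChar (ZMod p) (PadicInt.toZMod a)

open Pool.Agent.H501 Pool.Agent.H546 in
/-- **Full answer to Q1**: for every prime `p ≡ 1, 4 (mod 15)`, all integers `x, y` with
`p = x² + 15 y²` and all `s, t ∈ ℤ_p` with `s² = -15`, `t² = -3`,
`P_{(p-1)/2}(7 s + 16 t) ≡ (-s/p) (x/15) (2x - p/(2x)) (mod p²)`. -/
theorem result (p : ℕ) [hp : Fact p.Prime] (hp15 : p % 15 = 1 ∨ p % 15 = 4) (x y : ℤ)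
    (hxy : (p : ℤ) = x ^ 2 + 15 * y ^ 2) (s t : ℤ_[p]) (hs : s ^ 2 = -15) (ht : t ^ 2 = -3) :
    ∃ r : ℤ_[p], P ((p - 1) / 2) (7 * (s : ℚ_[p]) + 16 * (t : ℚ_[p])) -
      (symb (-s) : ℚ_[p]) * (jacobiSym x 15 : ℚ_[p]) * (2 * (x : ℚ_[p]) - (p : ℚ_[p]) / (2 * (x : ℚ_[p]))) =
        (p : ℚ_[p]) ^ 2 * (r : ℚ_[p]) := by
  have hpp := hp.out
  have hp2 : p ≠ 2 := by rintro rfl; norm_num at hp15
  have h2 : PadicInt.toZMod (2 : ℤ_[p]) ≠ 0 := by
    rw [map_ofNat]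
    intro h0
    have : ((2 : ℕ) : ZMod p) = 0 := by exact_mod_cast h0
    rw [ZMod.natCast_eq_zero_iff] at this
    exact hp2 ((Nat.prime_dvd_prime_iff_eq hpp Nat.prime_two).mp this)
  obtain ⟨h, hh⟩ := (unit_of h2).exists_right_inv
  have hpx : ¬ (p : ℤ) ∣ x := by
    refine form_ndvd (r := x) (s := y) (l1 := 1) (l2 := 15) (t0 := 0) (by rw [hxy]; ring) ?_
    intro h1
    have h3 : p ∣ 3 * 5 := by exact_mod_cast h1
    rcases hpp.dvd_mul.mp h3 with h4 | h4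
    · have := (Nat.prime_dvd_prime_iff_eq hpp Nat.prime_three).mp h4
      omega
    · have := (Nat.prime_dvd_prime_iff_eq hpp Nat.prime_five).mp h4
      omega
  have h2x : PadicInt.toZMod ((2 : ℤ_[p]) * (x : ℤ_[p])) ≠ 0 := by
    rw [map_mul]
    refine mul_ne_zero h2 ?_
    rw [map_intCast]
    intro h0
    exact hpx ((ZMod.intCast_zmod_eq_zero_iff_dvd x p).mp h0)
  obtain ⟨ix, hix⟩ := (unit_of h2x).exists_right_inv
  have hu : 2 * (x : ℤ_[p]) * (ix * p) = p := by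
    rw [← mul_assoc, hix, one_mul]
  obtain ⟨r, hr⟩ := fin60 hp15 hxy hs ht hh hu
  refine ⟨r, ?_⟩
  have hhQ : (2 : ℚ_[p]) * (h : ℚ_[p]) = 1 := by
    have := congrArg (fun a : ℤ_[p] => (a : ℚ_[p])) hh
    push_cast at this
    exact this
  have h2Q : (2 : ℚ_[p]) ≠ 0 := by
    intro h0; rw [h0, zero_mul] at hhQ; exact zero_ne_one hhQ
  have hixQ : (2 : ℚ_[p]) * (x : ℚ_[p]) * (ix : ℚ_[p]) = 1 := by
    have := congrArg (fun a : ℤ_[p] => (a : ℚ_[p])) hix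
    push_cast at this
    exact this
  have h2xQ : (2 : ℚ_[p]) * (x : ℚ_[p]) ≠ 0 := by
    intro h0; rw [h0, zero_mul] at hixQ; exact zero_ne_one hixQ
  have hP : P ((p - 1) / 2) (7 * (s : ℚ_[p]) + 16 * (t : ℚ_[p])) =
      ((lg ((p - 1) / 2) (h * (1 - (7 * s + 16 * t))) : ℤ_[p]) : ℚ_[p]) := by
    have e1 : ((lg ((p - 1) / 2) (h * (1 - (7 * s + 16 * t))) : ℤ_[p]) : ℚ_[p]) =
        lg ((p - 1) / 2) ((h : ℚ_[p]) * (1 - (7 * (s : ℚ_[p]) + 16 * (t : ℚ_[p])))) := by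
      have := lg_cast (PadicInt.Coe.ringHom (p := p)) ((p - 1) / 2) (h * (1 - (7 * s + 16 * t)))
      simp only [map_mul, map_sub, map_add, map_one, map_ofNat] at this
      exact this
    rw [e1]
    unfold P lg
    refine sum_congr rfl fun k _ => ?_
    have e2 : (7 * (s : ℚ_[p]) + 16 * (t : ℚ_[p]) - 1) / 2 =
        -((h : ℚ_[p]) * (1 - (7 * (s : ℚ_[p]) + 16 * (t : ℚ_[p])))) := by
      rw [div_eq_iff h2Q]
      linear_combination (-(7 * (s : ℚ_[p]) + 16 * (t : ℚ_[p]) - 1)) * hhQ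
    rw [e2, neg_pow]
    unfold Pool.Agent.Q267.Seven.dl
    push_cast
    ring
  have hdiv : (p : ℚ_[p]) / (2 * (x : ℚ_[p])) = (ix : ℚ_[p]) * p := by
    rw [div_eq_iff h2xQ]
    linear_combination (-(p : ℚ_[p])) * hixQ
  rw [hP, hdiv]
  have hrQ := congrArg (fun a : ℤ_[p] => (a : ℚ_[p])) hr
  push_cast at hrQ
  unfold symb
  exact hrQ

end Pool.Agent.Results.MP_df49e3_nt.SixtyLegendre
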